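import Pool.Agent.Q16.Loop.Tree

set_option autoImplicit false

namespace Pool.Agent.Results.MP_511665_al.OddLoop

open Pool.Agent.Q16.Loop

universe u

/-- `B` absorbs `C` with respect to the operation `f` of arity `n`. -/
def Absorbs {A : Type u} {n : ℕ} (f : (Fin n → A) → A) (B C : Set A) : Prop :=
  ∀ (j : Fin n) (b : Fin n → A) (c : A), (∀ i, b i ∈ B) → c ∈ C → f (Function.update b j c) ∈ B

/-- The local loop lemma for odd cycles under absorption. -/
theorem result (A : Type u) (R : A → A → Prop) (hsymm : ∀ x y, R x y → R y x)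
    (l : ℕ) (hl3 : 3 ≤ l) (hodd : Odd l) (a : Fin l → A) (_hinj : Function.Injective a)
    (hpath : ∀ (i : ℕ) (hi : i + 1 < l), R (a ⟨i, by omega⟩) (a ⟨i + 1, hi⟩))
    (hclose : R (a ⟨l - 1, by omega⟩) (a ⟨0, by omega⟩))
    (n : ℕ) (hn : 1 ≤ n) (f : (Fin n → A) → A)
    (hid : ∀ x, f (fun _ => x) = x)
    (hcomp : ∀ x y : Fin n → A, (∀ i, R (x i) (y i)) → R (f x) (f y))
    (habs : Absorbs f {b | R (a ⟨0, by omega⟩) b} {a ⟨0, by omega⟩}) :
    ∃ x, R x x := by
  have _ : NeZero n := ⟨by omega⟩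
  have _ : NeZero l := ⟨by omega⟩
  have h0 : (⟨(0 : ZMod l).val, ZMod.val_lt _⟩ : Fin l) = ⟨0, by omega⟩ := by
    apply Fin.ext; simp
  refine loop_exists (n := n) R hsymm l hodd (fun u => a ⟨u.val, ZMod.val_lt u⟩) ?_ f hid hcomp ?_
  · intro u
    have hu := ZMod.val_lt u
    have h1 : (1 : ZMod l).val = 1 := by
      have : Fact (1 < l) := ⟨by omega⟩
      exact ZMod.val_one l
    by_cases h : u.val + 1 < l
    · have h2 : (u + 1).val = u.val + 1 := by
        rw [ZMod.val_add, h1, Nat.mod_eq_of_lt h]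
      have h3 : (⟨(u + 1).val, ZMod.val_lt _⟩ : Fin l) = ⟨u.val + 1, h⟩ := Fin.ext h2
      show R (a ⟨u.val, _⟩) (a ⟨(u + 1).val, _⟩)
      rw [h3]
      exact hpath u.val h
    · have h4 : u.val = l - 1 := by omega
      have h2 : (u + 1).val = 0 := by
        rw [ZMod.val_add, h1, h4, show l - 1 + 1 = l by omega, Nat.mod_self]
      have h3 : (⟨(u + 1).val, ZMod.val_lt _⟩ : Fin l) = ⟨0, by omega⟩ := Fin.ext h2
      have h5 : (⟨u.val, ZMod.val_lt _⟩ : Fin l) = ⟨l - 1, by omega⟩ := Fin.ext h4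
      show R (a ⟨u.val, _⟩) (a ⟨(u + 1).val, _⟩)
      rw [h3, h5]
      exact hclose
  · intro j b hb
    have hb' : ∀ i, R (a ⟨(0 : ZMod l).val, ZMod.val_lt _⟩) (b i) := hb
    show R (a ⟨(0 : ZMod l).val, ZMod.val_lt _⟩)
      (f (Function.update b j (a ⟨(0 : ZMod l).val, ZMod.val_lt _⟩)))
    rw [h0] at hb' ⊢
    exact habs j b _ hb' rfl

end Pool.Agent.Results.MP_511665_al.OddLoop
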